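import Pool.Agent.N657.QL.Stm2

/-!
# Project QL: differences of ground state energies (S_DIF)
-/

namespace Pool.Agent.N839.QLD

open Filter Topology
open Pool.Agent.N657.QR Pool.Agent.N657.QL

section

variable {V : Type} [Fintype V] [DecidableEq V]

theorem pot_eq (U : ℝ) (ν : V → ℝ) (n : V → ℤ) :
    pot (U • (1 : Matrix V V ℝ)) ν n = U * ∑ x, ((n x : ℝ) - ν x) ^ 2 := by
  unfold pot
  rw [Finset.mul_sum]
  refine Finset.sum_congr rfl fun x _ => ?_
  rw [Finset.sum_eq_single x]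
  · simp only [Matrix.smul_apply, Matrix.one_apply_eq, smul_eq_mul]
    ring
  · intro y _ hy
    simp [Matrix.smul_apply, Matrix.one_apply_ne (Ne.symm hy)]
  · simp

theorem psd (U : ℝ) (hU : 0 < U) : (U • (1 : Matrix V V ℝ)).PosSemidef :=
  Matrix.PosSemidef.one.smul hU.le

theorem sumf {ψ : (V → ℤ) → ℝ} (h : fs ψ) (c : (V → ℤ) → ℝ) :
    Summable (fun n => c n * ψ n ^ 2) := by
  refine summable_of_finite_support (Set.Finite.subset h ?_)
  intro n hn
  simp only [Function.mem_support] at hn ⊢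
  intro h0
  apply hn
  rw [h0]
  ring

/-- Rounding with given sum. -/
theorem round (ν : V → ℝ) (N : ℤ) (h : ∑ x, ν x = (N : ℝ)) :
    ∃ m : V → ℤ, ∑ x, m x = N ∧ ∀ x, ((m x : ℝ) - ν x) ^ 2 ≤ 1 := by
  have h1 : ∑ x, ⌊ν x⌋ ≤ N := by
    have : ((∑ x, ⌊ν x⌋ : ℤ) : ℝ) ≤ (N : ℝ) := by
      rw [← h]
      push_cast
      exact Finset.sum_le_sum fun x _ => Int.floor_le (ν x)
    exact_mod_cast this
  have h2 : N ≤ ∑ x, ⌊ν x⌋ + (Fintype.card V : ℤ) := by
    have : (N : ℝ) ≤ ((∑ x, ⌊ν x⌋ + (Fintype.card V : ℤ) : ℤ) : ℝ) := by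
      rw [← h]
      push_cast
      have : ∑ x, ν x ≤ ∑ x, ((⌊ν x⌋ : ℝ) + 1) :=
        Finset.sum_le_sum fun x _ => (Int.lt_floor_add_one (ν x)).le
      rw [Finset.sum_add_distrib] at this
      simpa using this
    exact_mod_cast this
  obtain ⟨k, hk⟩ : ∃ k : ℕ, (k : ℤ) = N - ∑ x, ⌊ν x⌋ :=
    ⟨(N - ∑ x, ⌊ν x⌋).toNat, Int.toNat_of_nonneg (by omega)⟩
  have hkV : k ≤ (Finset.univ : Finset V).card := by
    rw [Finset.card_univ]
    omega
  obtain ⟨S, -, hS⟩ := Finset.exists_subset_card_eq hkV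
  refine ⟨fun x => ⌊ν x⌋ + if x ∈ S then 1 else 0, ?_, ?_⟩
  · rw [Finset.sum_add_distrib]
    have : (∑ x : V, if x ∈ S then (1 : ℤ) else 0) = (k : ℤ) := by
      rw [← hS]
      simp
    rw [this, hk]
    ring
  · intro x
    have ha := Int.floor_le (ν x)
    have hb := Int.lt_floor_add_one (ν x)
    by_cases hx : x ∈ S
    · simp only [hx, if_true]
      push_cast
      rw [sq_le_one_iff_abs_le_one, abs_le]
      constructor <;> linarith
    · simp only [hx, if_false]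
      push_cast
      rw [sq_le_one_iff_abs_le_one, abs_le]
      constructor <;> linarith

theorem nr_equiv (e : (V → ℤ) ≃ (V → ℤ)) (ψ : (V → ℤ) → ℝ) :
    nr (fun n => ψ (e n)) = nr ψ :=
  e.tsum_eq (fun n => ψ n ^ 2)

theorem po_equiv (K : Matrix V V ℝ) (ν : V → ℝ) (e : (V → ℤ) ≃ (V → ℤ)) (ψ : (V → ℤ) → ℝ) :
    po K ν (fun n => ψ (e n)) = ∑' n, pot K ν (e.symm n) * ψ n ^ 2 := by
  unfold po
  rw [← e.tsum_eq (fun n => pot K ν (e.symm n) * ψ n ^ 2)]
  simp

theorem fs_equiv (e : (V → ℤ) ≃ (V → ℤ)) {ψ : (V → ℤ) → ℝ} (h : fs ψ) :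
    fs (fun n => ψ (e n)) := by
  unfold fs at h ⊢
  have : Function.support (fun n => ψ (e n)) = e ⁻¹' Function.support ψ := rfl
  rw [this]
  exact Set.Finite.preimage e.injective.injOn h

theorem cr_add (m : V → ℤ) (x y : V) (ψ : (V → ℤ) → ℝ) :
    cr x y (fun n => ψ (Equiv.subRight m n)) = cr x y ψ := by
  unfold cr
  rw [← (Equiv.subRight m).tsum_eq (fun n => ψ (hp x y n) * ψ n)]
  refine tsum_congr fun n => ?_
  congr 2
  simp only [Equiv.subRight_apply, hp]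
  abel_nf

theorem cr_sub (hB : S_BAS) (m : V → ℤ) (x y : V) (ψ : (V → ℤ) → ℝ) :
    cr x y (fun n => ψ (Equiv.subLeft m n)) = cr x y ψ := by
  rw [hB.crcomm x y ψ]
  unfold cr
  rw [← (Equiv.subLeft m).tsum_eq (fun n => ψ (hp y x n) * ψ n)]
  refine tsum_congr fun n => ?_
  congr 2
  simp only [Equiv.subLeft_apply, hp]
  abel_nf

/-- Upper bound. -/
theorem up (hB : S_BAS) [Nonempty V] (U : ℝ) (hU : 0 < U) (w : V → V → ℝ)
    (hw : ∀ x y, 0 ≤ w x y) (ν : V → ℝ) (N : ℤ) (m : V → ℤ) (hm : ∑ x, m x = N) :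
    en (U • (1 : Matrix V V ℝ)) w ν N ≤
      en (U • (1 : Matrix V V ℝ)) w 0 0 + U * ∑ x, ((m x : ℝ) - ν x) ^ 2 := by
  refine le_of_forall_pos_le_add fun ε hε => ?_
  obtain ⟨ψ, hf, hs, hn, hlt⟩ := hB.enex (U • (1 : Matrix V V ℝ)) w 0 0 ε (psd U hU) hw hε
  set D : ℝ := ∑ x, ((m x : ℝ) - ν x) ^ 2 with hD
  have hs1 : Sec N (fun n => ψ (Equiv.subRight m n)) := by
    intro n hn0
    have := hs _ hn0
    simp only [Equiv.subRight_apply, tot, Pi.sub_apply, Finset.sum_sub_distrib] at this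
    simp only [tot]
    omega
  have hs2 : Sec N (fun n => ψ (Equiv.subLeft m n)) := by
    intro n hn0
    have := hs _ hn0
    simp only [Equiv.subLeft_apply, tot, Pi.sub_apply, Finset.sum_sub_distrib] at this
    simp only [tot]
    omega
  have h1 := hB.enle (U • (1 : Matrix V V ℝ)) w ν N _ (psd U hU) hw
    (fs_equiv (Equiv.subRight m) hf) hs1
  have h2 := hB.enle (U • (1 : Matrix V V ℝ)) w ν N _ (psd U hU) hw
    (fs_equiv (Equiv.subLeft m) hf) hs2
  rw [nr_equiv, hn, mul_one] at h1 h2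
  have hpo : po (U • (1 : Matrix V V ℝ)) ν (fun n => ψ (Equiv.subRight m n)) +
      po (U • (1 : Matrix V V ℝ)) ν (fun n => ψ (Equiv.subLeft m n)) =
      2 * po (U • (1 : Matrix V V ℝ)) 0 ψ + 2 * (U * D) := by
    rw [po_equiv, po_equiv]
    rw [← (sumf hf _).tsum_add (sumf hf _)]
    have e2 : 2 * po (U • (1 : Matrix V V ℝ)) 0 ψ + 2 * (U * D) =
        ∑' n, (2 * (pot (U • (1 : Matrix V V ℝ)) 0 n) * ψ n ^ 2 + 2 * (U * D) * ψ n ^ 2) := by
      rw [(sumf hf _).tsum_add (sumf hf _)]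
      congr 1
      · unfold po
        rw [← tsum_mul_left]
        refine tsum_congr fun n => ?_
        ring
      · rw [tsum_mul_left]
        unfold nr at hn
        rw [hn, mul_one]
    rw [e2]
    refine tsum_congr fun n => ?_
    rw [← add_mul, ← add_mul]
    congr 1
    rw [pot_eq, pot_eq, pot_eq, hD]
    simp only [Finset.mul_sum]
    rw [← Finset.sum_add_distrib, ← Finset.sum_add_distrib]
    refine Finset.sum_congr rfl fun x _ => ?_
    simp only [Equiv.subRight_symm_apply, Equiv.subLeft_symm_apply, Pi.add_apply, Pi.neg_apply,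
      Pi.zero_apply]
    push_cast
    ring
  have hF : FF (U • (1 : Matrix V V ℝ)) w ν (fun n => ψ (Equiv.subRight m n)) +
      FF (U • (1 : Matrix V V ℝ)) w ν (fun n => ψ (Equiv.subLeft m n)) =
      2 * FF (U • (1 : Matrix V V ℝ)) w 0 ψ + 2 * (U * D) := by
    unfold FF
    simp only [cr_add, cr_sub hB]
    linarith
  linarith

theorem shift (U : ℝ) (w : V → V → ℝ) (ν : V → ℝ) (N : ℤ) (c : ℝ)
    (hc : ∑ x, (ν x + c) = (N : ℝ)) (ψ : (V → ℤ) → ℝ) (hf : fs ψ) (hs : Sec N ψ)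
    (hn : nr ψ = 1) :
    FF (U • (1 : Matrix V V ℝ)) w ν ψ =
      FF (U • (1 : Matrix V V ℝ)) w (fun x => ν x + c) ψ + U * ((Fintype.card V : ℝ) * c ^ 2) := by
  have hpo : po (U • (1 : Matrix V V ℝ)) ν ψ =
      po (U • (1 : Matrix V V ℝ)) (fun x => ν x + c) ψ + U * ((Fintype.card V : ℝ) * c ^ 2) := by
    have e2 : po (U • (1 : Matrix V V ℝ)) (fun x => ν x + c) ψ +
        U * ((Fintype.card V : ℝ) * c ^ 2) =
        ∑' n, (pot (U • (1 : Matrix V V ℝ)) (fun x => ν x + c) n * ψ n ^ 2 +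
          U * ((Fintype.card V : ℝ) * c ^ 2) * ψ n ^ 2) := by
      rw [(sumf hf _).tsum_add (sumf hf _)]
      congr 1
      rw [tsum_mul_left]
      unfold nr at hn
      rw [hn, mul_one]
    rw [e2]
    unfold po
    refine tsum_congr fun n => ?_
    by_cases h0 : ψ n = 0
    · rw [h0]
      ring
    · have ht := hs n h0
      rw [← add_mul]
      congr 1
      rw [pot_eq, pot_eq, ← mul_add]
      congr 1
      have ht' : ∑ x, (n x : ℝ) = (N : ℝ) := by
        rw [← ht]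
        simp [tot]
      have e3 : ∑ x, ((n x : ℝ) - ν x) ^ 2 = ∑ x, (((n x : ℝ) - (ν x + c)) ^ 2 +
          (2 * c * ((n x : ℝ) - (ν x + c)) + c ^ 2)) := by
        refine Finset.sum_congr rfl fun x _ => ?_
        ring
      rw [e3, Finset.sum_add_distrib, Finset.sum_add_distrib, ← Finset.mul_sum,
        Finset.sum_sub_distrib, hc, ht']
      simp
  unfold FF
  rw [hpo]
  ring

end

theorem main (hB : S_BAS) (hM : S_MIN) : S_DIF := by
  intro V _ _ _ U w w' ν N hU hw hw'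
  have hV : (0 : ℝ) < Fintype.card V := by exact_mod_cast Fintype.card_pos
  obtain ⟨c, hc⟩ : ∃ c : ℝ, ∑ x, (ν x + c) = (N : ℝ) := by
    refine ⟨((N : ℝ) - ∑ x, ν x) / Fintype.card V, ?_⟩
    rw [Finset.sum_add_distrib]
    simp only [Finset.sum_const, Finset.card_univ, nsmul_eq_mul]
    field_simp
    ring
  obtain ⟨m, hm, hm1⟩ := round (fun x => ν x + c) N hc
  have hup := up hB U hU w hw ν N m hm
  have hD : ∑ x, ((m x : ℝ) - ν x) ^ 2 ≤ (Fintype.card V : ℝ) + (Fintype.card V : ℝ) * c ^ 2 := by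
    have hmR : ∑ x, (m x : ℝ) = (N : ℝ) := by
      rw [← hm]
      push_cast
      rfl
    have e3 : ∑ x, ((m x : ℝ) - ν x) ^ 2 = ∑ x, (((m x : ℝ) - (ν x + c)) ^ 2 +
        (2 * c * ((m x : ℝ) - (ν x + c)) + c ^ 2)) := by
      refine Finset.sum_congr rfl fun x _ => ?_
      ring
    rw [e3, Finset.sum_add_distrib, Finset.sum_add_distrib, ← Finset.mul_sum,
      Finset.sum_sub_distrib, hc, hmR]
    have : ∑ x, ((m x : ℝ) - (ν x + c)) ^ 2 ≤ ∑ _x : V, (1 : ℝ) :=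
      Finset.sum_le_sum fun x _ => hm1 x
    simp only [Finset.sum_const, Finset.card_univ, nsmul_eq_mul] at this ⊢
    linarith
  have hlow : en (U • (1 : Matrix V V ℝ)) w' 0 0 + U * ((Fintype.card V : ℝ) * c ^ 2) ≤
      en (U • (1 : Matrix V V ℝ)) w' ν N := by
    refine le_of_forall_pos_le_add fun ε hε => ?_
    obtain ⟨ψ, hf, hs, hn, hlt⟩ := hB.enex (U • (1 : Matrix V V ℝ)) w' ν N ε (psd U hU) hw' hε
    have h1 := hM (U • (1 : Matrix V V ℝ)) w' (fun x => ν x + c) N (psd U hU) hw'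
    have h2 := hB.enle (U • (1 : Matrix V V ℝ)) w' (fun x => ν x + c) N ψ (psd U hU) hw' hf hs
    rw [hn, mul_one] at h2
    have h3 := shift U w' ν N c hc ψ hf hs hn
    linarith
  have := mul_le_mul_of_nonneg_left hD hU.le
  linarith

end Pool.Agent.N839.QLD
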